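import Pool.Agent.R184.PhantomMeasure

set_option autoImplicit false

namespace Pool.Agent.Results.MP_5d876b_co.RestartBound

open Filter Topology Pool.Agent.R184.Phantom

/-- For all positive integers `a` and `m > 1`, in the phantom `(a : 2am)` minimum-degree-1 game on
`K_n` Maker's winning probability is asymptotically at most `(3/4) / m!`. Hence she has no
randomized strategies which win with probability at least `(1 - o(1)) / m!`. -/
theorem result (a m : ℕ) (ha : 0 < a) (hm : 1 < m) :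
    (∀ ε : ℝ, 0 < ε → ∀ᶠ n : ℕ in atTop, ∀ p : ℝ, MakerCanEnsure a (2 * a * m) n p →
      p ≤ (3 / 4 + ε) / m.factorial) ∧
    ¬ ∃ o : ℕ → ℝ, Tendsto o atTop (𝓝 0) ∧
      ∃ᶠ n : ℕ in atTop, MakerCanEnsure a (2 * a * m) n ((1 - o n) / m.factorial) := by
  have hm0 : (0 : ℝ) < m.factorial := by exact_mod_cast m.factorial_pos
  have h1 : ∀ ε : ℝ, 0 < ε → ∀ᶠ n : ℕ in atTop, ∀ p : ℝ, MakerCanEnsure a (2 * a * m) n p →
      p ≤ (3 / 4 + ε) / m.factorial := by
    intro ε hε
    filter_upwards [main_bound a m ha hm (ε / m.factorial) (by positivity)] with n hn p hp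
    refine (hn p hp).trans (le_of_eq ?_)
    rw [add_div]
  refine ⟨h1, ?_⟩
  rintro ⟨o, ho, hfreq⟩
  have h2 : ∀ᶠ n in atTop, o n < 1 / 8 := ho.eventually (gt_mem_nhds (by norm_num))
  obtain ⟨n, hn1, hn2, hn3⟩ := (hfreq.and_eventually (h2.and (h1 (1 / 8) (by norm_num)))).exists
  have h3 := hn3 _ hn1
  rw [div_le_div_iff_of_pos_right hm0] at h3
  linarith

end Pool.Agent.Results.MP_5d876b_co.RestartBound
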